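import Pool.Agent.LP.VMain
import Pool.Agent.LP.VLatE

/-!
# `p_max(Z^n) = 4 - 2√3` for all sufficiently large `n`
-/

set_option autoImplicit false

open MeasureTheory ProbabilityTheory

namespace Pool.Agent.Results.MP_8c5616_pr.EventuallyExact

/-- There is `n₀` such that for every `n ≥ n₀` the critical value `p_max(Z^n)` of 1-independent bond percolation on
`Z^n` (supremum of all `p` for which there is a 1-independent bond percolation measure on `Z^n` with all edge
probabilities at least `p` and almost surely only finite open clusters) equals `4 - 2√3`. -/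
theorem result :
    ∃ n₀ : ℕ, ∀ n : ℕ, n₀ ≤ n →
      sSup {p : ℝ | ∃ μ : Measure ((Fin n → ℤ) × Fin n → Bool),
        IsProbabilityMeasure μ ∧
        (∀ A B : Set ((Fin n → ℤ) × Fin n),
          (∀ a ∈ A, ∀ b ∈ B,
            Disjoint ({a.1, a.1 + Pi.single a.2 1} : Set (Fin n → ℤ))
              ({b.1, b.1 + Pi.single b.2 1} : Set (Fin n → ℤ))) →
          Indep (⨆ a ∈ A, MeasurableSpace.comap (fun ω : (Fin n → ℤ) × Fin n → Bool => ω a)
                    (⊤ : MeasurableSpace Bool))
                (⨆ b ∈ B, MeasurableSpace.comap (fun ω : (Fin n → ℤ) × Fin n → Bool => ω b)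
                    (⊤ : MeasurableSpace Bool)) μ) ∧
        (∀ e : (Fin n → ℤ) × Fin n, ENNReal.ofReal p ≤ μ {ω | ω e = true}) ∧
        (∀ᵐ ω ∂μ, ∀ x : Fin n → ℤ,
          {y : Fin n → ℤ | (SimpleGraph.fromRel
              (fun u v : Fin n → ℤ => ∃ i : Fin n, v = u + Pi.single i 1 ∧ ω (u, i) = true)).Reachable x y}.Finite)}
        = 4 - 2 * Real.sqrt 3 := by
  obtain ⟨N₀, hmain⟩ := Pool.Agent.LP.main_upper
  exact ⟨4 + N₀, fun n hn => Pool.Agent.LP.final_all N₀ hmain n hn⟩

end Pool.Agent.Results.MP_8c5616_pr.EventuallyExact
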